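import Pool.Graph.R_pool_sql_team_39128cda.H.MP_d4a354_an.A

/-!
Expansions in a base `β` whose asymptotic averages of countably many asymptotically additive
functionals are prescribed. Part 1.
-/

set_option autoImplicit false

namespace Pool.Agent.KS6_94.BX

open Finset Filter MeasureTheory Topology Pool.Agent.H.MP_d4a354_an
open scoped ENNReal

variable {m : ℕ} {β : ℝ}

/-- asymptotically additive functionals of the digit sequences -/
structure AsympAdd (S : (ℕ → Fin (m + 1)) → ℕ → ℝ) : Prop where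
  bdd : ∃ B : ℝ, ∀ w (n : ℕ), |S w n| ≤ B * (n + 1)
  loc : ∀ ε > 0, ∃ K : ℝ, ∀ w w' (n : ℕ), (∀ i < n, w i = w' i) → |S w n - S w' n| ≤ ε * n + K
  add : ∀ ε > 0, ∃ K : ℝ, ∀ w (n l : ℕ),
    |S w (n + l) - S w n - S (fun i => w (n + i)) l| ≤ ε * (n + l) + K

theorem AsympAdd.glue {S : (ℕ → Fin (m + 1)) → ℕ → ℝ} (hS : AsympAdd S) {ε : ℝ} (hε : 0 < ε) :
    ∃ K : ℝ, 0 ≤ K ∧ ∀ w v (n l : ℕ), (∀ i < l, w (n + i) = v i) →
      |S w (n + l) - S w n - S v l| ≤ ε * (n + l) + K := by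
  obtain ⟨K1, h1⟩ := hS.loc (ε / 2) (by positivity)
  obtain ⟨K2, h2⟩ := hS.add (ε / 2) (by positivity)
  refine ⟨max 0 (K1 + K2), le_max_left _ _, fun w v n l h => ?_⟩
  have a1 := abs_le.1 (h1 (fun i => w (n + i)) v l h)
  have a2 := abs_le.1 (h2 w n l)
  have a3 := le_max_right 0 (K1 + K2)
  have a4 : (0 : ℝ) ≤ n := Nat.cast_nonneg _
  have a5 := mul_nonneg hε.le a4
  rw [abs_le]
  constructor <;> nlinarith [a1.1, a1.2, a2.1, a2.2]

/-- `limsup f n / n = b` -/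
def Ev (f : ℕ → ℝ) (b : ℝ) : Prop :=
  ∀ η > 0, (∀ᶠ n : ℕ in atTop, f n ≤ (b + η) * n) ∧ ∃ᶠ n : ℕ in atTop, (b - η) * n ≤ f n

theorem Ev.shift {f g : ℕ → ℝ} {b : ℝ} {R : ℕ} (h : Ev f b)
    (hg : ∀ ε > 0, ∃ K : ℝ, ∀ l : ℕ, |g (R + l) - f l| ≤ ε * l + K) : Ev g b := by
  intro η hη
  obtain ⟨K, hK⟩ := hg (η / 4) (by positivity)
  obtain ⟨h1, h2⟩ := h (η / 4) (by positivity)
  have hlarge : ∀ c : ℝ, ∀ᶠ l : ℕ in atTop, c ≤ η / 2 * l := by
    intro c
    filter_upwards [eventually_ge_atTop ⌈c / (η / 2)⌉₊] with l hl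
    have := (Nat.le_ceil _).trans (Nat.cast_le (α := ℝ).2 hl)
    rw [div_le_iff₀ (by positivity)] at this
    linarith
  constructor
  · have h3 : ∀ᶠ l : ℕ in atTop, g (R + l) ≤ (b + η) * ((R + l : ℕ) : ℝ) := by
      filter_upwards [h1, hlarge (K - (b + η) * R)] with l h4 h5
      have h6 := (abs_le.1 (hK l)).2
      push_cast
      nlinarith
    obtain ⟨N, hN⟩ := eventually_atTop.1 h3
    filter_upwards [eventually_ge_atTop (R + N)] with n hn
    obtain ⟨l, rfl⟩ := Nat.exists_eq_add_of_le (show R ≤ n by omega)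
    exact hN l (by omega)
  · have h3 : ∃ᶠ l : ℕ in atTop, (b - η) * ((R + l : ℕ) : ℝ) ≤ g (R + l) := by
      refine (h2.and_eventually (hlarge (K + (b - η) * R))).mono ?_
      rintro l ⟨h4, h5⟩
      have h6 := (abs_le.1 (hK l)).1
      push_cast
      nlinarith
    rw [frequently_atTop] at h3 ⊢
    intro N
    obtain ⟨l, h4, h5⟩ := h3 N
    exact ⟨R + l, by omega, h5⟩

variable (S : ℕ → (ℕ → Fin (m + 1)) → ℕ → ℝ) (a : ℕ → ℝ)

/-- all averages are as prescribed -/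
def Good (w : ℕ → Fin (m + 1)) : Prop := ∀ τ, Ev (S τ w) (a τ)

def Gd (T : ℕ) (η : ℝ) (C M L : ℕ) (w : ℕ → Fin (m + 1)) : Prop :=
  ∀ τ < T, (∀ n ≤ L, S τ w n ≤ (a τ + η) * n + C) ∧
    ∃ n, M ≤ n ∧ n ≤ L ∧ (a τ - η) * n - C ≤ S τ w n

variable {S a}

theorem good_glue (hS : ∀ τ, AsympAdd (S τ)) {w} (h : Good S a w) (R u) :
    Good S a (glue R u w) := by
  intro τ
  refine (h τ).shift (R := R) fun ε hε => ?_
  obtain ⟨K, -, hK⟩ := (hS τ).glue hε
  refine ⟨ε * R + K + |S τ (glue R u w) R|, fun l => ?_⟩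
  have h1 := hK (glue R u w) w R l fun i _ => glue_add R i u w
  have h2 : S τ (glue R u w) (R + l) - S τ w l =
      (S τ (glue R u w) (R + l) - S τ (glue R u w) R - S τ w l) + S τ (glue R u w) R := by ring
  rw [h2]
  refine (abs_add_le _ _).trans ?_
  nlinarith

theorem Gd.mono {T η C C' M L w} (h : Gd S a T η C M L w) (hC : C ≤ C') :
    Gd S a T η C' M L w := by
  have : (C : ℝ) ≤ C' := by exact_mod_cast hC
  intro τ hτ
  obtain ⟨h1, n, h2, h3, h4⟩ := h τ hτ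
  exact ⟨fun n hn => by linarith [h1 n hn], n, h2, h3, by linarith⟩

theorem ev_const {f : ℕ → ℝ} {b : ℝ} (h : Ev f b) {η : ℝ} (hη : 0 < η) :
    ∃ C : ℕ, ∀ n : ℕ, f n ≤ (b + η) * n + C := by
  obtain ⟨N, hN⟩ := eventually_atTop.1 (h η hη).1
  obtain ⟨C, hC⟩ := exists_nat_ge (∑ n ∈ range N, |f n - (b + η) * n|)
  refine ⟨C, fun n => ?_⟩
  rcases lt_or_ge n N with h1 | h1
  · have h2 := single_le_sum (f := fun n : ℕ => |f n - (b + η) * n|)
      (fun i _ => abs_nonneg _) (mem_range.2 h1)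
    have h3 := le_abs_self (f n - (b + η) * n)
    linarith
  · have := hN n h1
    have h2 : (0 : ℝ) ≤ C := Nat.cast_nonneg _
    linarith

theorem Good.gd {w} (h : Good S a w) (T : ℕ) {η : ℝ} (hη : 0 < η) :
    ∃ C, ∀ M, ∀ᶠ L in atTop, Gd S a T η C M L w := by
  choose C hC using fun τ => ev_const (h τ) hη
  have hle : ∀ τ < T, (C τ : ℝ) ≤ ((∑ τ ∈ range T, C τ : ℕ) : ℝ) := fun τ hτ =>
    Nat.cast_le.2 (single_le_sum (f := C) (fun _ _ => Nat.zero_le _) (mem_range.2 hτ))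
  refine ⟨∑ τ ∈ range T, C τ, fun M => ?_⟩
  have key : ∀ τ : Fin T, ∀ᶠ L in atTop,
      (∀ n ≤ L, S τ w n ≤ (a τ + η) * n + ((∑ τ ∈ range T, C τ : ℕ) : ℝ)) ∧
      ∃ n, M ≤ n ∧ n ≤ L ∧ (a τ - η) * n - ((∑ τ ∈ range T, C τ : ℕ) : ℝ) ≤ S τ w n := by
    intro τ
    obtain ⟨n, h1, h2⟩ := frequently_atTop.1 (h τ η hη).2 M
    filter_upwards [eventually_ge_atTop n] with L hL
    have h3 := hle τ τ.2
    have h4 : (0 : ℝ) ≤ ((∑ τ ∈ range T, C τ : ℕ) : ℝ) := Nat.cast_nonneg _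
    exact ⟨fun n _ => by linarith [hC τ n], n, h1, hL, by linarith⟩
  filter_upwards [eventually_all.2 key] with L hL τ hτ
  exact hL ⟨τ, hτ⟩

variable (β S a) in
def E1 : Set ℝ := {y | ∃ w, Good S a w ∧ ∀ n, rem β w n y ∈ II β m}

variable (β S a) in
def E2 : Set ℝ := {y | ∃ w w', w ≠ w' ∧ Good S a w ∧ Good S a w' ∧
  (∀ n, rem β w n y ∈ II β m) ∧ ∀ n, rem β w' n y ∈ II β m}

theorem exp_glue (hβ : 1 < β) {R} {u w : ℕ → Fin (m + 1)} {y}
    (h : ∀ n, rem β w n (rem β u R y) ∈ II β m) (n) :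
    rem β (glue R u w) n y ∈ II β m :=
  rem_le hβ (Nat.le_add_left n R) (by rw [rem_glue hβ]; exact h n)

theorem e2_full (hβ : 1 < β) (hm : β < m + 1) (hm' : 0 < m) (hS : ∀ τ, AsympAdd (S τ))
    (h : volume (II β m \ E1 β S a) = 0) :
    volume (II β m \ E2 β S a) = 0 := by
  let tr : (R : ℕ) → (Fin R → Fin (m + 1)) → ℕ → Fin (m + 1) :=
    fun R u i => if h : i < R then u ⟨i, h⟩ else 0
  have h1 : volume (Uq β m ∪ ⋃ (R : ℕ) (u : Fin R → Fin (m + 1)),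
      {y | rem β (tr R u) R y ∈ II β m \ E1 β S a}) = 0 := by
    refine measure_union_null (uq_null hβ hm hm') (measure_iUnion_null fun R =>
      measure_iUnion_null fun u => ?_)
    rw [vol_pre hβ, h, mul_zero]
  refine measure_mono_null (fun y hy => ?_) h1
  by_contra hn
  simp only [Set.mem_union, Set.mem_iUnion, not_or, not_exists, Set.mem_ofPred_eq] at hn
  obtain ⟨h2, h3⟩ := hn
  have h4 : ∀ R (u : ℕ → Fin (m + 1)), rem β u R y ∈ II β m → rem β u R y ∈ E1 β S a := by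
    intro R u hu
    have := h3 R fun i => u i
    rw [rem_congr (w' := u) fun i hi => by simp [tr, hi]] at this
    by_contra h5
    exact this ⟨hu, h5⟩
  simp only [Uq, Set.mem_ofPred_eq, not_and, not_not] at h2
  obtain ⟨R, u, u', ⟨i, hi, hne⟩, hu, hu'⟩ := h2 hy.1
  obtain ⟨w, g1, e1⟩ := h4 R u hu
  obtain ⟨w', g2, e2⟩ := h4 R u' hu'
  refine hy.2 ⟨glue R u w, glue R u' w', fun h => hne ?_, good_glue hS g1 _ _,
    good_glue hS g2 _ _, exp_glue hβ e1, exp_glue hβ e2⟩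
  have := congrFun h i
  rwa [glue_lt _ _ hi, glue_lt _ _ hi] at this

variable (β S a) in
def Two (T : ℕ) (η : ℝ) (C M L : ℕ) : Set ℝ := ⋃ (i : Fin C) (d : Fin (m + 1)),
  Cov β {w | Gd S a T η C M L w ∧ w i = d} L ∩ Cov β {w | Gd S a T η C M L w ∧ w i ≠ d} L

theorem two_meas (hβ : 1 < β) (hm' : 0 < m) (T η C M L) :
    MeasurableSet (Two β S a T η C M L) :=
  .iUnion fun _ => .iUnion fun _ => (cov_meas hβ hm' _ _).inter (cov_meas hβ hm' _ _)

theorem two_mono {T η C C' M L} (hC : C ≤ C') : Two β S a T η C M L ⊆ Two β S a T η C' M L := by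
  intro y hy
  simp only [Two, Set.mem_iUnion] at hy ⊢
  obtain ⟨i, d, ⟨w, ⟨h1, h2⟩, h3⟩, ⟨w', ⟨h4, h5⟩, h6⟩⟩ := hy
  exact ⟨⟨i, by omega⟩, d, ⟨w, ⟨h1.mono hC, h2⟩, h3⟩, ⟨w', ⟨h4.mono hC, h5⟩, h6⟩⟩

theorem shrink {s : ℕ → Set ℝ} (hs : ∀ n, MeasurableSet (s n)) (hmo : Monotone s) {δ : ℝ≥0∞}
    (h : volume (II β m \ ⋃ n, s n) < δ) : ∃ n, volume (II β m \ s n) < δ := by
  have := tendsto_measure_iInter_atTop (μ := volume) (s := fun n => II β m \ s n)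
    (fun n => (measurableSet_Icc.diff (hs n)).nullMeasurableSet)
    (fun i j hij => Set.sdiff_subset_sdiff_right (hmo hij))
    ⟨0, ((measure_mono Set.sdiff_subset).trans_lt measure_Icc_lt_top).ne⟩
  rw [← Set.sdiff_iUnion] at this
  exact (this.eventually (gt_mem_nhds h)).exists

theorem stage1 (hβ : 1 < β) (hm' : 0 < m) (h : volume (II β m \ E2 β S a) = 0) (T : ℕ) {η : ℝ}
    (hη : 0 < η) {δ : ℝ≥0∞} (hδ : δ ≠ 0) :
    ∃ C, ∀ M, ∃ L ≥ M, volume (II β m \ Two β S a T η C M L) < δ := by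
  let Y : ℕ → ℕ → ℕ → Set ℝ := fun C M L0 => ⋂ L ≥ L0, Two β S a T η C M L
  have hY : ∀ C M L0, MeasurableSet (Y C M L0) :=
    fun C M L0 => .iInter fun L => .iInter fun _ => two_meas hβ hm' _ _ _ _ _
  obtain ⟨C, hC⟩ := shrink (β := β) (m := m) (s := fun C => ⋂ M, ⋃ L0, Y C M L0) (δ := δ)
    (fun C => .iInter fun M => .iUnion fun L0 => hY C M L0)
    (fun C C' hC => Set.iInter_mono fun M => Set.iUnion_mono fun L0 =>
      Set.iInter₂_mono fun L _ => two_mono hC) (by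
      refine lt_of_le_of_lt (measure_mono (Set.sdiff_subset_sdiff_right ?_)) (h.trans_lt hδ.bot_lt)
      rintro y ⟨w, w', hne, g1, g2, e1, e2⟩
      obtain ⟨i, hi⟩ := Function.ne_iff.1 hne
      obtain ⟨C1, h1⟩ := g1.gd T hη
      obtain ⟨C2, h2⟩ := g2.gd T hη
      simp only [Set.mem_iUnion, Set.mem_iInter, Y]
      refine ⟨C1 + C2 + i + 1, fun M => eventually_atTop.1 ?_⟩
      filter_upwards [h1 M, h2 M] with L h3 h4
      simp only [Two, Set.mem_iUnion]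
      exact ⟨⟨i, by omega⟩, w i, ⟨w, ⟨h3.mono (by omega), rfl⟩, e1 L⟩,
        ⟨w', ⟨h4.mono (by omega), hi.symm⟩, e2 L⟩⟩)
  refine ⟨C, fun M => ?_⟩
  obtain ⟨L0, hL⟩ := shrink (β := β) (m := m) (s := Y C M) (δ := δ) (hY C M)
    (fun L L' h => Set.biInter_subset_biInter_left fun x hx => le_trans h hx)
    (lt_of_le_of_lt (measure_mono (Set.sdiff_subset_sdiff_right (Set.iInter_subset _ M))) hC)
  refine ⟨max L0 M, le_max_right _ _, lt_of_le_of_lt (measure_mono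
    (Set.sdiff_subset_sdiff_right ?_)) hL⟩
  exact Set.biInter_subset_of_mem (le_max_left L0 M)

theorem stage2 (hβ : 1 < β) (hm' : 0 < m) (T η C M L) :
    ∃ V : Finset (ℕ → Fin (m + 1)), (∀ v ∈ V, Gd S a T η C M L v) ∧
      (∀ Z : Set ℝ, volume (⋃ v ∈ V, {y | rem β v L y ∈ Z}) ≤
        ((8 * C * (m + 1) + 1 : ℕ) : ℝ≥0∞) * volume Z) ∧
      ∀ y, ∃ c : Bool → ℕ → Fin (m + 1), y ∈ Two β S a T η C M L →
        (∀ b, c b ∈ V ∧ rem β (c b) L y ∈ II β m) ∧ ∃ i < C, c true i ≠ c false i := by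
  classical
  choose V1 a1 b1 c1 using fun (i : Fin C) (d : Fin (m + 1)) =>
    sel hβ hm' {w | Gd S a T η C M L w ∧ w i = d} L
  choose V2 a2 b2 c2 using fun (i : Fin C) (d : Fin (m + 1)) =>
    sel hβ hm' {w | Gd S a T η C M L w ∧ w i ≠ d} L
  refine ⟨univ.biUnion fun p : Fin C × Fin (m + 1) => V1 p.1 p.2 ∪ V2 p.1 p.2, ?_, ?_, ?_⟩
  · intro v hv
    simp only [mem_biUnion, mem_univ, mem_union, true_and] at hv
    obtain ⟨p, h | h⟩ := hv
    exacts [(a1 _ _ h).1, (a2 _ _ h).1]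
  · intro Z
    refine (measure_biUnion_finset_le _ _).trans ?_
    simp only [vol_pre hβ, sum_const, nsmul_eq_mul, ← mul_assoc]
    gcongr
    have hp : 0 < β ^ L := by positivity
    rw [← ENNReal.ofReal_natCast, ← ENNReal.ofReal_mul (Nat.cast_nonneg _),
      ← ENNReal.ofReal_natCast]
    refine ENNReal.ofReal_le_ofReal ?_
    rw [← div_eq_mul_inv, div_le_iff₀ hp]
    have h1 : ((univ.biUnion fun p : Fin C × Fin (m + 1) => V1 p.1 p.2 ∪ V2 p.1 p.2).card : ℝ) ≤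
        ∑ p : Fin C × Fin (m + 1), (8 * β ^ L) := by
      refine le_trans (Nat.cast_le.2 card_biUnion_le) ?_
      rw [Nat.cast_sum]
      refine sum_le_sum fun p _ => ?_
      have : ((V1 p.1 p.2 ∪ V2 p.1 p.2).card : ℝ) ≤ (V1 p.1 p.2).card + (V2 p.1 p.2).card := by
        exact_mod_cast card_union_le _ _
      linarith [b1 p.1 p.2, b2 p.1 p.2]
    simp only [sum_const, card_univ, Fintype.card_prod, Fintype.card_fin, nsmul_eq_mul] at h1
    push_cast at h1 ⊢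
    nlinarith
  · intro y
    by_cases hy : y ∈ Two β S a T η C M L
    · simp only [Two, Set.mem_iUnion] at hy
      obtain ⟨i, d, h1, h2⟩ := hy
      obtain ⟨w, h3, h4⟩ := c1 i d h1
      obtain ⟨w', h5, h6⟩ := c2 i d h2
      refine ⟨fun b => if b then w else w', fun _ => ⟨fun b => ?_, i, i.2, ?_⟩⟩
      · cases b
        · exact ⟨mem_biUnion.2 ⟨(i, d), mem_univ _, mem_union_right _ h5⟩, h6⟩
        · exact ⟨mem_biUnion.2 ⟨(i, d), mem_univ _, mem_union_left _ h3⟩, h4⟩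
      · simp only [if_true, Bool.false_eq_true, if_false, (a1 i d h3).2]
        exact (a2 i d h5).2.symm
    · exact ⟨fun _ _ => 0, fun h => (hy h).elim⟩

end Pool.Agent.KS6_94.BX
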